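import Pool.Agent.Helper43.FV.Spec

/-!
# Module E: the second case (invariant field of genus one, all places hit)
-/

set_option autoImplicit false

namespace Pool.Agent.Helper43.FV

open Pool.Agent.Helper43.RS
open scoped ComplexConjugate

/-! ## Group theory -/

/-- relations which behave like homomorphisms `C → P` with kernel `N` -/
theorem E_abs {G P : Type} [Group G] [CommGroup P] (C N : Subgroup G) (R : G → P → Prop)
    (hex : ∀ c ∈ C, ∃ p, R c p) (hmul : ∀ c c' p p', R c p → R c' p' → R (c * c') (p * p'))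
    (hinv : ∀ c p, R c p → R c⁻¹ p⁻¹) (hN : ∀ c ∈ C, R c 1 → c ∈ N)
    (hN' : ∀ c ∈ N, R c 1) (huniq : ∀ c p p', R c p → R c p' → p = p')
    (hdiv : ∀ p : P, ∃ q, q * q = p) (htwo : {p : P | p * p = 1}.Finite)
    (hcase : {p | ∃ c ∈ C, R c p}.Finite ∨
      ∃ D : Subgroup P, D.index ≠ 0 ∧ ∀ p ∈ D, ∃ c ∈ C, R c p) :
    (∃ T : Finset G, ∀ c ∈ C, ∃ t ∈ T, ∃ d ∈ C, t⁻¹ * c * (d * d) ∈ N) ∧
      ∃ T : Finset G, ∀ c ∈ C, c * c ∈ N → ∃ t ∈ T, t⁻¹ * c ∈ N := by
  classical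
  -- a general choice
  have hch : ∀ p : P, ∃ t : G, (∃ c ∈ C, R c p) → t ∈ C ∧ R t p := by
    intro p
    by_cases h : ∃ c ∈ C, R c p
    · obtain ⟨c, hc, hr⟩ := h
      exact ⟨c, fun _ => ⟨hc, hr⟩⟩
    · exact ⟨1, fun h' => absurd h' h⟩
  choose τ hτ using hch
  have key : ∀ c ∈ C, ∀ p, R c p → (τ p)⁻¹ * c ∈ N := by
    intro c hc p hp
    obtain ⟨h1, h2⟩ := hτ p ⟨c, hc, hp⟩
    apply hN _ (C.mul_mem (C.inv_mem h1) hc)
    have := hmul _ _ _ _ (hinv _ _ h2) hp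
    rwa [inv_mul_cancel] at this
  refine ⟨?_, ?_⟩
  · rcases hcase with hfin | ⟨D, hD, hDC⟩
    · refine ⟨hfin.toFinset.image τ, fun c hc => ?_⟩
      obtain ⟨p, hp⟩ := hex c hc
      refine ⟨τ p, Finset.mem_image_of_mem _ (hfin.mem_toFinset.2 ⟨c, hc, hp⟩), 1, C.one_mem, ?_⟩
      rw [mul_one, mul_one]
      exact key c hc p hp
    · have hsurj : Function.Surjective (powMonoidHom 2 : P →* P) := by
        intro p
        obtain ⟨q, hq⟩ := hdiv p
        exact ⟨q, by rw [powMonoidHom_apply, pow_two, hq]⟩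
      have h2 : (D.map (powMonoidHom 2 : P →* P)).index ≠ 0 :=
        ne_zero_of_dvd_ne_zero hD (D.index_map_dvd hsurj)
      set D2 := D.map (powMonoidHom 2 : P →* P) with hD2
      have : D2.FiniteIndex := ⟨h2⟩
      have : Fintype (P ⧸ D2) := Fintype.ofFinite _
      have hch2 : ∀ q : P ⧸ D2, ∃ t : G, (∃ c ∈ C, ∃ p, R c p ∧ (p : P ⧸ D2) = q) →
          t ∈ C ∧ ∃ p, R t p ∧ (p : P ⧸ D2) = q := by
        intro q
        by_cases h : ∃ c ∈ C, ∃ p, R c p ∧ (p : P ⧸ D2) = q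
        · obtain ⟨c, hc, hr⟩ := h
          exact ⟨c, fun _ => ⟨hc, hr⟩⟩
        · exact ⟨1, fun h' => absurd h' h⟩
      choose σ hσ using hch2
      refine ⟨Finset.univ.image σ, fun c hc => ?_⟩
      obtain ⟨p, hp⟩ := hex c hc
      obtain ⟨h3, p', h4, h5⟩ := hσ (p : P ⧸ D2) ⟨c, hc, p, hp, rfl⟩
      rw [QuotientGroup.eq] at h5
      obtain ⟨δ, hδ, hδ2⟩ := h5
      rw [powMonoidHom_apply, pow_two] at hδ2
      obtain ⟨d, hd, hdr⟩ := hDC δ hδ
      refine ⟨σ (p : P ⧸ D2), Finset.mem_image_of_mem _ (Finset.mem_univ _), d⁻¹, C.inv_mem hd, ?_⟩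
      apply hN _ (C.mul_mem (C.mul_mem (C.inv_mem h3) hc) (C.mul_mem (C.inv_mem hd) (C.inv_mem hd)))
      have h6 := hmul _ _ _ _ (hmul _ _ _ _ (hinv _ _ h4) hp)
        (hmul _ _ _ _ (hinv _ _ hdr) (hinv _ _ hdr))
      rw [← hδ2] at h6
      rwa [show δ * δ * (δ⁻¹ * δ⁻¹) = 1 by
        rw [mul_assoc, ← mul_assoc δ δ⁻¹ δ⁻¹, mul_inv_cancel, one_mul, mul_inv_cancel]] at h6
  · refine ⟨htwo.toFinset.image τ, fun c hc hcc => ?_⟩
    obtain ⟨p, hp⟩ := hex c hc
    have h1 : p * p = 1 := huniq _ _ _ (hmul _ _ _ _ hp hp) (hN' _ hcc)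
    exact ⟨τ p, Finset.mem_image_of_mem _ (htwo.mem_toFinset.2 h1), key c hc p hp⟩

theorem E_comap_index {G G' : Type} [Group G] [Group G'] (H : Subgroup G') (f : G →* G')
    (hH : H.index ≠ 0) : (H.comap f).index ≠ 0 := by
  have h1 : H.FiniteIndex := ⟨hH⟩
  have h2 : H.IsFiniteRelIndex f.range := Subgroup.isFiniteRelIndex_of_finiteIndex
  rw [Subgroup.index_comap]
  exact Subgroup.relIndex_ne_zero

/-! ## Matrices acting by scalars on given subspaces -/

/-- the group of the invertible matrices which act by a scalar on each `U i` -/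
def E_Z {k m : ℕ} (U : Fin m → Submodule ℂ (Fin k → ℂ)) : Subgroup (GL (Fin k) ℂ) where
  carrier := {M | ∀ i, ∃ c : ℂ, ∀ x ∈ U i,
    (M : Matrix (Fin k) (Fin k) ℂ).mulVec x = c • x}
  mul_mem' := by
    intro M N hM hN i
    obtain ⟨c, hc⟩ := hM i
    obtain ⟨d, hd⟩ := hN i
    refine ⟨d * c, fun x hx => ?_⟩
    rw [Matrix.GeneralLinearGroup.coe_mul, ← Matrix.mulVec_mulVec, hd x hx, Matrix.mulVec_smul,
      hc x hx, smul_smul]
  one_mem' := fun i => ⟨1, fun x _ => by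
    rw [Matrix.GeneralLinearGroup.coe_one, Matrix.one_mulVec, one_smul]⟩
  inv_mem' := by
    intro M hM i
    obtain ⟨c, hc⟩ := hM i
    refine ⟨c⁻¹, fun x hx => ?_⟩
    have h1 : x = c • ((M⁻¹ : GL (Fin k) ℂ) : Matrix (Fin k) (Fin k) ℂ).mulVec x := by
      rw [← Matrix.mulVec_smul, ← hc x hx, Matrix.mulVec_mulVec,
        ← Matrix.GeneralLinearGroup.coe_mul, inv_mul_cancel, Matrix.GeneralLinearGroup.coe_one,
        Matrix.one_mulVec]
    by_cases h0 : c = 0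
    · rw [h0, zero_smul] at h1
      rw [h1, Matrix.mulVec_zero, smul_zero]
    · conv_rhs => rw [h1]
      rw [smul_smul, inv_mul_cancel₀ h0, one_smul]

theorem E_mem_Z {k m : ℕ} {U : Fin m → Submodule ℂ (Fin k → ℂ)} {M : GL (Fin k) ℂ} :
    M ∈ E_Z U ↔ ∀ i, ∃ c : ℂ, ∀ x ∈ U i,
      (M : Matrix (Fin k) (Fin k) ℂ).mulVec x = c • x := Iff.rfl

theorem E_Zclosed {k m : ℕ} (U : Fin m → Submodule ℂ (Fin k → ℂ)) :
    ZClosed (E_Z U : Set (GL (Fin k) ℂ)) := by
  refine ⟨{p | ∃ i, ∃ x ∈ U i, ∃ x' ∈ U i, ∃ j j',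
    p = (∑ l, MvPolynomial.X (Sum.inl (j, l)) * MvPolynomial.C (x l)) *
          MvPolynomial.C (x' j') -
        (∑ l, MvPolynomial.X (Sum.inl (j', l)) * MvPolynomial.C (x' l)) *
          MvPolynomial.C (x j)}, ?_⟩
  have hev : ∀ (M : GL (Fin k) ℂ) (x x' : Fin k → ℂ) (j j' : Fin k),
      MvPolynomial.eval (entries M)
        ((∑ l, MvPolynomial.X (Sum.inl (j, l)) * MvPolynomial.C (x l)) *
          MvPolynomial.C (x' j') -
        (∑ l, MvPolynomial.X (Sum.inl (j', l)) * MvPolynomial.C (x' l)) *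
          MvPolynomial.C (x j)) =
      (M : Matrix (Fin k) (Fin k) ℂ).mulVec x j * x' j' -
        (M : Matrix (Fin k) (Fin k) ℂ).mulVec x' j' * x j := by
    intro M x x' j j'
    simp [entries, Matrix.mulVec, dotProduct]
  ext M
  rw [SetLike.mem_coe, E_mem_Z, Set.mem_ofPred_eq]
  constructor
  · rintro h p ⟨i, x, hx, x', hx', j, j', rfl⟩
    obtain ⟨c, hc⟩ := h i
    rw [hev, hc x hx, hc x' hx', Pi.smul_apply, Pi.smul_apply, smul_eq_mul, smul_eq_mul]
    ring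
  · intro h i
    by_cases h0 : ∀ x ∈ U i, x = 0
    · refine ⟨0, fun x hx => ?_⟩
      rw [h0 x hx, Matrix.mulVec_zero, smul_zero]
    · push Not at h0
      obtain ⟨x', hx', hne⟩ := h0
      obtain ⟨j', hj'⟩ : ∃ j', x' j' ≠ 0 := by
        by_contra hcon
        push Not at hcon
        exact hne (funext hcon)
      refine ⟨(M : Matrix (Fin k) (Fin k) ℂ).mulVec x' j' / x' j', fun x hx => ?_⟩
      funext j
      have h1 := h _ ⟨i, x, hx, x', hx', j, j', rfl⟩
      rw [hev] at h1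
      rw [Pi.smul_apply, smul_eq_mul]
      field_simp
      linear_combination h1

/-! ## The finite dimensional space -/

section Space

variable {K : Type} [Field K] [Algebra ℂ K]

/-- `E₀ · y` -/
def E_W (E0 : Submodule ℂ K) (y : K) : Submodule ℂ K :=
  E0.map (LinearMap.mulRight ℂ y)

theorem E_mem_W {E0 : Submodule ℂ K} {y w : K} : w ∈ E_W E0 y ↔ ∃ e ∈ E0, e * y = w := by
  simp [E_W, Submodule.mem_map]

/-- the sum of the `E₀ · y i` -/
def E_V {n : ℕ} (E0 : Submodule ℂ K) (y : Fin n → K) : Submodule ℂ K := ⨆ i, E_W E0 (y i)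

theorem E_W_le {n : ℕ} (E0 : Submodule ℂ K) (y : Fin n → K) (i : Fin n) :
    E_W E0 (y i) ≤ E_V E0 y := le_iSup (fun i => E_W E0 (y i)) i

theorem E_V_fd {n : ℕ} (E0 : Submodule ℂ K) [FiniteDimensional ℂ E0] (y : Fin n → K) :
    FiniteDimensional ℂ (E_V E0 y) := by
  have : ∀ i, FiniteDimensional ℂ (E_W E0 (y i)) := fun i =>
    inferInstanceAs (FiniteDimensional ℂ (E0.map (LinearMap.mulRight ℂ (y i))))
  exact Submodule.finiteDimensional_iSup _

/-- an automorphism acting by scalars on the `E₀ · y i` is linear on `V` -/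
theorem E_lin {n k : ℕ} (E0 : Submodule ℂ K) (y : Fin n → K)
    (b : Module.Basis (Fin k) ℂ (E_V E0 y)) (a : K ≃ₐ[ℂ] K)
    (ha : ∀ i, ∃ c : ℂ, ∀ w ∈ E_W E0 (y i), a w = c • w) :
    ∃ M ∈ E_Z (fun i => (E_W E0 (y i)).comap
        (Fintype.linearCombination ℂ (fun j => (b j : K)))),
      LinRel (fun j => (b j : K)) a M := by
  classical
  have hmem : ∀ (a : K ≃ₐ[ℂ] K), (∀ i, ∃ c : ℂ, ∀ w ∈ E_W E0 (y i), a w = c • w) →
      ∀ w ∈ E_V E0 y, a w ∈ E_V E0 y := by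
    intro a ha w hw
    have : E_V E0 y ≤ (E_V E0 y).comap a.toLinearMap := by
      refine iSup_le fun i w hw => ?_
      obtain ⟨c, hc⟩ := ha i
      rw [Submodule.mem_comap, AlgEquiv.toLinearMap_apply, hc w hw]
      exact (E_V E0 y).smul_mem _ (E_W_le E0 y i hw)
    exact this hw
  have hainv : ∀ i, ∃ c : ℂ, ∀ w ∈ E_W E0 (y i), a.symm w = c • w := by
    intro i
    obtain ⟨c, hc⟩ := ha i
    refine ⟨c⁻¹, fun w hw => ?_⟩
    have h1 : w = c • a.symm w := by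
      rw [← map_smul, ← hc w hw, AlgEquiv.symm_apply_apply]
    by_cases h0 : c = 0
    · rw [h0, zero_smul] at h1
      rw [h1, map_zero, smul_zero]
    · conv_rhs => rw [h1]
      rw [smul_smul, inv_mul_cancel₀ h0, one_smul]
  set L : E_V E0 y →ₗ[ℂ] E_V E0 y := a.toLinearMap.restrict (hmem a ha) with hL
  set L' : E_V E0 y →ₗ[ℂ] E_V E0 y := a.symm.toLinearMap.restrict (hmem a.symm hainv) with hL'
  have hLL' : L ∘ₗ L' = LinearMap.id := by
    refine LinearMap.ext fun w => Subtype.ext ?_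
    change a (a.symm (w : K)) = w
    exact a.apply_symm_apply _
  have hL'L : L' ∘ₗ L = LinearMap.id := by
    refine LinearMap.ext fun w => Subtype.ext ?_
    change a.symm (a (w : K)) = w
    exact a.symm_apply_apply _
  set M : GL (Fin k) ℂ := ⟨LinearMap.toMatrix b b L, LinearMap.toMatrix b b L',
    by rw [← LinearMap.toMatrix_comp, hLL', LinearMap.toMatrix_id],
    by rw [← LinearMap.toMatrix_comp, hL'L, LinearMap.toMatrix_id]⟩ with hM
  have hMv : ∀ i, a (b i : K) = ∑ j, (M : Matrix (Fin k) (Fin k) ℂ) j i • (b j : K) := by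
    intro i
    have h1 : (L (b i) : K) = a (b i : K) := rfl
    rw [← h1]
    conv_lhs => rw [← b.sum_repr (L (b i))]
    rw [Submodule.coe_sum]
    refine Finset.sum_congr rfl fun j _ => ?_
    rw [Submodule.coe_smul]
    have h2 : (M : Matrix (Fin k) (Fin k) ℂ) j i = b.repr (L (b i)) j := by
      change LinearMap.toMatrix b b L j i = _
      rw [LinearMap.toMatrix_apply]
    rw [h2]
  refine ⟨M, ?_, 1, one_ne_zero, fun i => by rw [one_mul]; exact hMv i⟩
  intro i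
  obtain ⟨c, hc⟩ := ha i
  refine ⟨c, fun x hx => ?_⟩
  rw [Submodule.mem_comap] at hx
  have hli : LinearIndependent ℂ (fun j => (b j : K)) :=
    b.linearIndependent.map' (E_V E0 y).subtype (Submodule.ker_subtype _)
  apply hli.fintypeLinearCombination_injective
  rw [map_smul, ← hc _ hx, Fintype.linearCombination_apply, Fintype.linearCombination_apply,
    map_sum]
  simp_rw [map_smul, hMv, Matrix.mulVec, dotProduct, Finset.sum_smul, Finset.smul_sum, smul_smul]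
  rw [Finset.sum_comm]
  refine Finset.sum_congr rfl fun j _ => Finset.sum_congr rfl fun l _ => ?_
  rw [mul_comm]

/-- a projectively linear map is, up to the factor, the linear map given by the matrix -/
theorem E_act {k : ℕ} (v : Fin k → K) (a : K ≃ₐ[ℂ] K) (M : Matrix (Fin k) (Fin k) ℂ) (f : K)
    (h : ∀ i, a (v i) = f * ∑ j, M j i • v j) (x : Fin k → ℂ) :
    a (Fintype.linearCombination ℂ v x) =
      f * Fintype.linearCombination ℂ v (M.mulVec x) := by
  rw [Fintype.linearCombination_apply, Fintype.linearCombination_apply, map_sum]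
  simp_rw [map_smul, h, Matrix.mulVec, dotProduct, Finset.sum_smul, Finset.mul_sum,
    Finset.smul_sum]
  rw [Finset.sum_comm]
  refine Finset.sum_congr rfl fun j _ => Finset.sum_congr rfl fun l _ => ?_
  rw [mul_smul_comm, mul_smul_comm, smul_smul, mul_comm]

/-- converse -/
theorem E_nil {n k : ℕ} (E0 : Submodule ℂ K) (h1 : (1 : K) ∈ E0) (y : Fin n → K)
    (hy : ∃ i, y i = 1)
    (b : Module.Basis (Fin k) ℂ (E_V E0 y)) (a : K ≃ₐ[ℂ] K)
    (M : GL (Fin k) ℂ) (hM : M ∈ E_Z (fun i => (E_W E0 (y i)).comap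
        (Fintype.linearCombination ℂ (fun j => (b j : K)))))
    (hl : LinRel (fun j => (b j : K)) a M) :
    (∀ e ∈ E0, a e = e) ∧ ∀ i, ∃ c : ℂ, a (y i) = c • y i := by
  obtain ⟨f, hf, hl⟩ := hl
  have hact := E_act (fun j => (b j : K)) a M f hl
  have hrep : ∀ w ∈ E_V E0 y, ∃ x : Fin k → ℂ,
      Fintype.linearCombination ℂ (fun j => (b j : K)) x = w := by
    intro w hw
    refine ⟨fun j => b.repr ⟨w, hw⟩ j, ?_⟩
    rw [Fintype.linearCombination_apply]
    have := congrArg (Subtype.val) (b.sum_repr ⟨w, hw⟩)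
    rw [Submodule.coe_sum] at this
    exact this
  have hsc : ∀ i, ∃ c : ℂ, ∀ w ∈ E_W E0 (y i), a w = f * c • w := by
    intro i
    obtain ⟨c, hc⟩ := hM i
    refine ⟨c, fun w hw => ?_⟩
    obtain ⟨x, hx⟩ := hrep w (E_W_le E0 y i hw)
    have h2 : x ∈ (E_W E0 (y i)).comap (Fintype.linearCombination ℂ (fun j => (b j : K))) := by
      rw [Submodule.mem_comap, hx]
      exact hw
    rw [← hx, hact, hc x h2, map_smul]
  obtain ⟨i0, hi0⟩ := hy
  obtain ⟨c0, hc0⟩ := hsc i0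
  have hE : ∀ e ∈ E0, a e = f * c0 • e := by
    intro e he
    apply hc0
    rw [E_mem_W]
    exact ⟨e, he, by rw [hi0, mul_one]⟩
  have hf1 : f * c0 • (1 : K) = 1 := by
    rw [← hE 1 h1, map_one]
  have hf2 : ∀ e : K, f * c0 • e = e := by
    intro e
    calc f * c0 • e = (f * c0 • (1 : K)) * e := by
          rw [Algebra.smul_def, Algebra.smul_def]; ring
      _ = e := by rw [hf1, one_mul]
  refine ⟨fun e he => by rw [hE e he, hf2], fun i => ?_⟩
  obtain ⟨c, hc⟩ := hsc i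
  have hc0ne : c0 ≠ 0 := by
    rintro rfl
    rw [zero_smul, mul_zero] at hf1
    exact zero_ne_one hf1
  refine ⟨c0⁻¹ * c, ?_⟩
  rw [hc (y i) (by rw [E_mem_W]; exact ⟨1, h1, one_mul _⟩)]
  have := hf2 (c0⁻¹ • c • y i)
  rwa [smul_smul c0, mul_inv_cancel₀ hc0ne, one_smul, smul_smul] at this

/-- the ratios of a basis of `V` generate the field -/
theorem E_rat {n k : ℕ} (E0 : Submodule ℂ K) (h1 : (1 : K) ∈ E0) (y : Fin n → K)
    (hy : ∃ i, y i = 1) (hgen : FGen (Set.range y))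
    (b : Module.Basis (Fin k) ℂ (E_V E0 y)) : RatGen (fun j => (b j : K)) := by
  unfold RatGen FGen at *
  rw [eq_top_iff, ← hgen, IntermediateField.adjoin_le_iff]
  set L := IntermediateField.adjoin ℂ {x : K | ∃ i j, x = (b i : K) / (b j : K)} with hL
  have hrep : ∀ w ∈ E_V E0 y, ∃ x : Fin k → ℂ, w = ∑ j, x j • (b j : K) := by
    intro w hw
    refine ⟨fun j => b.repr ⟨w, hw⟩ j, ?_⟩
    have := congrArg (Subtype.val) (b.sum_repr ⟨w, hw⟩)
    rw [Submodule.coe_sum] at this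
    exact this.symm
  obtain ⟨i0, hi0⟩ := hy
  have hyV : ∀ i, y i ∈ E_V E0 y := fun i =>
    E_W_le E0 y i (by rw [E_mem_W]; exact ⟨1, h1, one_mul _⟩)
  have h1V : (1 : K) ∈ E_V E0 y := by
    rw [← hi0]
    exact hyV i0
  -- some basis vector
  have hk : Nonempty (Fin k) := by
    by_contra hcon
    rw [not_nonempty_iff] at hcon
    obtain ⟨x, hx⟩ := hrep 1 h1V
    rw [Finset.univ_eq_empty, Finset.sum_empty] at hx
    exact one_ne_zero hx
  obtain ⟨j0⟩ := hk
  have hratio : ∀ w ∈ E_V E0 y, w / (b j0 : K) ∈ L := by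
    intro w hw
    obtain ⟨x, hx⟩ := hrep w hw
    rw [hx, Finset.sum_div]
    refine L.sum_mem fun j _ => ?_
    rw [smul_div_assoc]
    exact L.smul_mem (IntermediateField.subset_adjoin ℂ _ ⟨j, j0, rfl⟩)
  have hb0 : (b j0 : K) ≠ 0 := by
    intro h
    exact b.ne_zero j0 (Subtype.ext h)
  rintro _ ⟨i, rfl⟩
  have h2 := L.div_mem (hratio _ (hyV i)) (hratio _ h1V)
  rwa [div_div_div_cancel_right₀ hb0, div_one] at h2

end Space

/-! ## Restrictions -/

section Restrict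

variable {K : Type} [Field K] [Algebra ℂ K]

/-- restriction to a stable subfield -/
def E_res (F : IntermediateField ℂ K) (a : K ≃ₐ[ℂ] K) (h1 : ∀ f ∈ F, a f ∈ F)
    (h2 : ∀ f ∈ F, a.symm f ∈ F) : F ≃ₐ[ℂ] F where
  toFun f := ⟨a f, h1 f f.2⟩
  invFun f := ⟨a.symm f, h2 f f.2⟩
  left_inv _ := Subtype.ext (a.symm_apply_apply _)
  right_inv _ := Subtype.ext (a.apply_symm_apply _)
  map_mul' _ _ := Subtype.ext (map_mul a _ _)
  map_add' _ _ := Subtype.ext (map_add a _ _)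
  commutes' c := Subtype.ext (a.commutes c)

/-- restriction as a homomorphism -/
def E_resHom (F : IntermediateField ℂ K) (A : Subgroup (K ≃ₐ[ℂ] K))
    (h : ∀ a ∈ A, ∀ f ∈ F, a f ∈ F) : A →* (F ≃ₐ[ℂ] F) where
  toFun a := E_res F a (h a a.2) (h (a : K ≃ₐ[ℂ] K)⁻¹ (A.inv_mem a.2))
  map_one' := AlgEquiv.ext fun _ => Subtype.ext rfl
  map_mul' _ _ := AlgEquiv.ext fun _ => Subtype.ext rfl

/-- the restriction of `s` to `F` -/
def E_sF (F : IntermediateField ℂ K) (s : K ≃+* K) (hF : ∀ f ∈ F, s f ∈ F) (f : F) : F :=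
  ⟨s f, hF f f.2⟩

theorem E_sF_coe {F : IntermediateField ℂ K} {s : K ≃+* K} {hF : ∀ f ∈ F, s f ∈ F} (f : F) :
    ((E_sF F s hF f : F) : K) = s f := rfl

theorem E_sF_sF {F : IntermediateField ℂ K} {s : K ≃+* K} {hF : ∀ f ∈ F, s f ∈ F}
    (hinv : ∀ r, s (s r) = r) (f : F) : E_sF F s hF (E_sF F s hF f) = f :=
  Subtype.ext (hinv f)

theorem E_sF_mul {F : IntermediateField ℂ K} {s : K ≃+* K} {hF : ∀ f ∈ F, s f ∈ F}
    (f g : F) : E_sF F s hF (f * g) = E_sF F s hF f * E_sF F s hF g :=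
  Subtype.ext (map_mul s _ _)

theorem E_sF_add {F : IntermediateField ℂ K} {s : K ≃+* K} {hF : ∀ f ∈ F, s f ∈ F}
    (f g : F) : E_sF F s hF (f + g) = E_sF F s hF f + E_sF F s hF g :=
  Subtype.ext (map_add s _ _)

theorem E_sF_alg {F : IntermediateField ℂ K} {s : K ≃+* K} {hF : ∀ f ∈ F, s f ∈ F}
    (hanti : ∀ c : ℂ, s (algebraMap ℂ K c) = algebraMap ℂ K (conj c)) (c : ℂ) :
    E_sF F s hF (algebraMap ℂ F c) = algebraMap ℂ F (conj c) :=
  Subtype.ext (hanti c)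

/-- conjugation with an antilinear involution -/
noncomputable def E_kap (F : IntermediateField ℂ K) (s : K ≃+* K)
    (hanti : ∀ c : ℂ, s (algebraMap ℂ K c) = algebraMap ℂ K (conj c))
    (hinv : ∀ r, s (s r) = r) (hF : ∀ f ∈ F, s f ∈ F) : (F ≃ₐ[ℂ] F) →* (F ≃ₐ[ℂ] F) where
  toFun b :=
    { toFun := fun f => E_sF F s hF (b (E_sF F s hF f))
      invFun := fun f => E_sF F s hF (b.symm (E_sF F s hF f))
      left_inv := fun f => by
        simp only [E_sF_sF hinv, AlgEquiv.symm_apply_apply]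
      right_inv := fun f => by
        simp only [E_sF_sF hinv, AlgEquiv.apply_symm_apply]
      map_mul' := fun f g => by
        simp only [E_sF_mul, map_mul]
      map_add' := fun f g => by
        simp only [E_sF_add, map_add]
      commutes' := fun c => by
        simp only [E_sF_alg hanti, AlgEquiv.commutes, Complex.conj_conj] }
  map_one' := AlgEquiv.ext fun f => E_sF_sF (hF := hF) hinv f
  map_mul' b b' := AlgEquiv.ext fun f => by
    change E_sF F s hF (b (b' (E_sF F s hF f))) =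
      E_sF F s hF (b (E_sF F s hF (E_sF F s hF (b' (E_sF F s hF f)))))
    rw [E_sF_sF hinv]

theorem E_kap_apply {F : IntermediateField ℂ K} {s : K ≃+* K}
    {hanti : ∀ c : ℂ, s (algebraMap ℂ K c) = algebraMap ℂ K (conj c)}
    {hinv : ∀ r, s (s r) = r} {hF : ∀ f ∈ F, s f ∈ F} (b : F ≃ₐ[ℂ] F) (f : F) :
    ((E_kap F s hanti hinv hF b f : F) : K) = s (b (E_sF F s hF f) : F) := rfl

/-- automorphisms in `A` multiplying the `y i` by elements of `F` -/
def E_A1 (F : IntermediateField ℂ K) (A : Subgroup (K ≃ₐ[ℂ] K))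
    (h : ∀ a ∈ A, ∀ f ∈ F, a f ∈ F) {n : ℕ} (y : Fin n → K) (hy : ∀ i, y i ≠ 0) :
    Subgroup (K ≃ₐ[ℂ] K) where
  carrier := {a | a ∈ A ∧ ∀ i, ∃ u ∈ F, a (y i) = u * y i}
  mul_mem' := by
    rintro a b ⟨ha, ha'⟩ ⟨hb, hb'⟩
    refine ⟨A.mul_mem ha hb, fun i => ?_⟩
    obtain ⟨u, hu, hu'⟩ := ha' i
    obtain ⟨v, hv, hv'⟩ := hb' i
    refine ⟨a v * u, F.mul_mem (h a ha v hv) hu, ?_⟩
    rw [AlgEquiv.mul_apply, hv', map_mul, hu', mul_assoc]
  one_mem' := ⟨A.one_mem, fun i => ⟨1, F.one_mem, by rw [AlgEquiv.one_apply, one_mul]⟩⟩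
  inv_mem' := by
    rintro a ⟨ha, ha'⟩
    refine ⟨A.inv_mem ha, fun i => ?_⟩
    obtain ⟨u, hu, hu'⟩ := ha' i
    have hu0 : u ≠ 0 := by
      rintro rfl
      rw [zero_mul] at hu'
      exact hy i ((map_eq_zero_iff a a.injective).1 hu')
    refine ⟨(a⁻¹ u)⁻¹, F.inv_mem (h _ (A.inv_mem ha) u hu), ?_⟩
    have h1 : a⁻¹ (a (y i)) = a⁻¹ (u * y i) := by rw [hu']
    rw [← AlgEquiv.mul_apply, inv_mul_cancel, AlgEquiv.one_apply, map_mul] at h1
    have h2 : a⁻¹ u ≠ 0 := (map_ne_zero_iff _ (a⁻¹).injective).2 hu0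
    rw [eq_inv_mul_iff_mul_eq₀ h2]
    exact h1.symm

theorem E_mem_A1 {F : IntermediateField ℂ K} {A : Subgroup (K ≃ₐ[ℂ] K)}
    {h : ∀ a ∈ A, ∀ f ∈ F, a f ∈ F} {n : ℕ} {y : Fin n → K} {hy : ∀ i, y i ≠ 0}
    {a : K ≃ₐ[ℂ] K} : a ∈ E_A1 F A h y hy ↔ a ∈ A ∧ ∀ i, ∃ u ∈ F, a (y i) = u * y i := Iff.rfl

theorem E_resTo_mul {F : IntermediateField ℂ K} {P : Type} [CommGroup P]
    {T : P →* (F ≃ₐ[ℂ] F)} {a b : K → K} {p q : P} (ha : ResTo F a (T p))
    (hb : ResTo F b (T q)) : ResTo F (fun r => a (b r)) (T (p * q)) := by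
  intro f
  rw [map_mul, AlgEquiv.mul_apply, ha, hb]

theorem E_resTo_inv {F : IntermediateField ℂ K} {P : Type} [CommGroup P]
    {T : P →* (F ≃ₐ[ℂ] F)} {a b : K → K} (hab : ∀ r, b (a r) = r) {p : P}
    (ha : ResTo F a (T p)) : ResTo F b (T p⁻¹) := by
  intro f
  have h1 := ha (T p⁻¹ f)
  rw [← AlgEquiv.mul_apply, ← map_mul, mul_inv_cancel, map_one, AlgEquiv.one_apply] at h1
  rw [h1, hab]

/-- the elements of `E_A1` acting on `F` as translations -/
def E_A2 (F : IntermediateField ℂ K) (A1 : Subgroup (K ≃ₐ[ℂ] K)) {P : Type} [CommGroup P]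
    (T : P →* (F ≃ₐ[ℂ] F)) : Subgroup (K ≃ₐ[ℂ] K) where
  carrier := {a | a ∈ A1 ∧ ∃ p, ResTo F a (T p)}
  mul_mem' := by
    rintro a b ⟨ha, p, hp⟩ ⟨hb, q, hq⟩
    exact ⟨A1.mul_mem ha hb, p * q, fun f => E_resTo_mul (a := ⇑a) (b := ⇑b) hp hq f⟩
  one_mem' := ⟨A1.one_mem, 1, fun f => by rw [map_one, AlgEquiv.one_apply, AlgEquiv.one_apply]⟩
  inv_mem' := by
    rintro a ⟨ha, p, hp⟩
    exact ⟨A1.inv_mem ha, p⁻¹, E_resTo_inv (fun r => a.symm_apply_apply r) hp⟩

theorem E_mem_A2 {F : IntermediateField ℂ K} {A1 : Subgroup (K ≃ₐ[ℂ] K)} {P : Type}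
    [CommGroup P] {T : P →* (F ≃ₐ[ℂ] F)} {a : K ≃ₐ[ℂ] K} :
    a ∈ E_A2 F A1 T ↔ a ∈ A1 ∧ ∃ p, ResTo F a (T p) := Iff.rfl

/-- finite index -/
theorem E_A2_index {F : IntermediateField ℂ K} {A : Subgroup (K ≃ₐ[ℂ] K)}
    (h : ∀ a ∈ A, ∀ f ∈ F, a f ∈ F) {n : ℕ} {y : Fin n → K} (hy : ∀ i, y i ≠ 0)
    (hfin : ∃ A' : Subgroup (K ≃ₐ[ℂ] K), A' ≤ A ∧ A'.relIndex A ≠ 0 ∧
      ∀ a ∈ A', ∀ i, ∃ u ∈ F, a (y i) = u * y i)
    {P : Type} [CommGroup P] {T : P →* (F ≃ₐ[ℂ] F)} (hT : T.range.index ≠ 0) :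
    (E_A2 F (E_A1 F A h y hy) T).relIndex A ≠ 0 := by
  obtain ⟨A', hA', hind, hA'2⟩ := hfin
  have h1 : (E_A1 F A h y hy).relIndex A ≠ 0 :=
    ne_zero_of_dvd_ne_zero hind (Subgroup.relIndex_dvd_of_le_left A
      (fun a ha => ⟨hA' ha, hA'2 a ha⟩))
  set B : Subgroup (K ≃ₐ[ℂ] K) := (T.range.comap (E_resHom F A h)).map A.subtype with hB
  have h2 : B.relIndex A ≠ 0 := by
    have h3 : (T.range.comap (E_resHom F A h)).index ≠ 0 := by
      exact E_comap_index _ _ hT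
    have h4 : B.relIndex A = (T.range.comap (E_resHom F A h)).index := by
      have h5 : A = (⊤ : Subgroup A).map A.subtype := by
        rw [← MonoidHom.range_eq_map, Subgroup.range_subtype]
      conv_lhs => rw [h5]
      rw [hB, Subgroup.relIndex_map_map_of_injective _ _ A.subtype_injective,
        Subgroup.relIndex_top_right]
    rwa [h4]
  have h3 := Subgroup.relIndex_inf_ne_zero h1 h2
  refine ne_zero_of_dvd_ne_zero h3 (Subgroup.relIndex_dvd_of_le_left A ?_)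
  rintro a ⟨ha1, ha2⟩
  obtain ⟨a', ⟨p, hp⟩, rfl⟩ := ha2
  refine ⟨ha1, p, fun f => ?_⟩
  rw [hp]
  rfl

/-- a function without zeros and poles is constant -/
theorem E_const (h6 : ST_DEG) {F : Type} [Field F] [Algebra ℂ F] (hF : FF F) (u : F)
    (hu : u ≠ 0) (h : ∀ w : Pl F, w.1 u = 0) : ∃ c : ℂ, u = algebraMap ℂ F c := by
  by_contra hcon
  push Not at hcon
  obtain ⟨D, hD, -, hD2⟩ := h6 F hF u hu
  obtain ⟨h1, h2⟩ := hD2 hcon
  have h3 : D = 0 := by
    ext w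
    rw [hD w, h w, Finsupp.zero_apply]
  rw [h3, Finsupp.sum_zero_index] at h2
  omega

/-- characterization of the elements of `E_A1` acting trivially on `F` -/
theorem E_N1 (h5 : ST_DELTA) (h6 : ST_DEG) {X : Set (Subalgebra ℂ K)}
    {A : Subgroup (K ≃ₐ[ℂ] K)} {S : Set (K ≃+* K)} {F : IntermediateField ℂ K} {n : ℕ}
    {y : Fin n → K} (hcd : CaseData X A S F n y) (hhit : Hit X F = Set.univ) :
    ∃ (k : ℕ) (v : Fin k → K), LinearIndependent ℂ v ∧ RatGen v ∧
      ∃ Z : Subgroup (GL (Fin k) ℂ), ZClosed (Z : Set (GL (Fin k) ℂ)) ∧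
        ∀ a ∈ A, (∃ M ∈ Z, LinRel v a M) ↔
          (a ∈ E_A1 F A hcd.stab y hcd.ne ∧ ∀ f ∈ F, a f = f) := by
  classical
  obtain ⟨s, hs⟩ := hcd.ff.fg
  set E0 : Submodule ℂ K := Submodule.span ℂ (insert 1 ((fun f : F => (f : K)) '' s)) with hE0
  have hfd : FiniteDimensional ℂ E0 :=
    FiniteDimensional.span_of_finite ℂ ((s.finite_toSet.image _).insert _)
  have h1 : (1 : K) ∈ E0 := Submodule.subset_span (Set.mem_insert _ _)
  have hE0F : ∀ e ∈ E0, e ∈ F := by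
    intro e he
    have : E0 ≤ F.toSubalgebra.toSubmodule := by
      rw [hE0, Submodule.span_le]
      rintro x (rfl | ⟨f, -, rfl⟩)
      · exact F.one_mem
      · exact f.2
    exact this he
  have hVfd := E_V_fd E0 y
  set b := Module.finBasis ℂ (E_V E0 y) with hb
  refine ⟨_, fun j => (b j : K),
    b.linearIndependent.map' (E_V E0 y).subtype (Submodule.ker_subtype _),
    E_rat E0 h1 y hcd.one hcd.gen b, E_Z (fun i => (E_W E0 (y i)).comap
      (Fintype.linearCombination ℂ (fun j => (b j : K)))), E_Zclosed _, fun a ha => ⟨?_, ?_⟩⟩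
  · rintro ⟨M, hM, hl⟩
    obtain ⟨h2, h3⟩ := E_nil E0 h1 y hcd.one b a M hM hl
    refine ⟨⟨ha, fun i => ?_⟩, fun f hf => ?_⟩
    · obtain ⟨c, hc⟩ := h3 i
      exact ⟨algebraMap ℂ K c, F.algebraMap_mem c, by rw [hc, Algebra.smul_def]⟩
    · have h4 : ∀ g : F, a (g : K) = g := by
        intro g
        have hg : g ∈ IntermediateField.adjoin ℂ (s : Set F) := by
          rw [hs]
          exact IntermediateField.mem_top
        refine IntermediateField.adjoin_induction (F := ℂ) (s := (s : Set F))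
          (p := fun g _ => a (g : K) = g) ?_ ?_ ?_ ?_ ?_ hg
        · intro x hx
          exact h2 _ (Submodule.subset_span (Set.mem_insert_of_mem _ ⟨x, hx, rfl⟩))
        · intro c
          exact a.commutes c
        · intro x x' _ _ hx hx'
          push_cast
          rw [map_add, hx, hx']
        · intro x _ hx
          push_cast
          rw [map_inv₀, hx]
        · intro x x' _ _ hx hx'
          push_cast
          rw [map_mul, hx, hx']
      exact h4 ⟨f, hf⟩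
  · rintro ⟨⟨-, h2⟩, h3⟩
    apply E_lin
    obtain ⟨δ, -, -, hδ1, hδ2⟩ := h5 K X hcd.model F hcd.ff
    have hpres : Pres X a := by
      obtain ⟨C, hC⟩ := hcd.sys.mem
      exact ((hC a).1 ha).1
    intro i
    obtain ⟨u, hu, hu'⟩ := h2 i
    have hu0 : u ≠ 0 := by
      rintro rfl
      rw [zero_mul] at hu'
      exact hcd.ne i ((map_eq_zero_iff a a.injective).1 hu')
    have h7 : ∀ w : Pl F, w.1 ⟨u, hu⟩ = 0 := by
      intro w
      have h8 := hδ1 (y i) (hcd.ne i) ⟨u, hu⟩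
        (fun h => hu0 (congrArg Subtype.val h)) w (by rw [hhit]; exact Set.mem_univ _)
      have h9 := hδ2 a hpres 1 (fun f => by rw [AlgEquiv.one_apply, h3 f f.2]) (y i)
        (hcd.ne i) w
      have h10 : actPl (1 : F ≃ₐ[ℂ] F) w = w := Subtype.ext (funext fun f => rfl)
      rw [h10, hu'] at h9
      simp only at h8
      omega
    obtain ⟨c, hc⟩ := E_const h6 hcd.ff ⟨u, hu⟩
      (fun h => hu0 (congrArg Subtype.val h)) h7
    refine ⟨c, fun w hw => ?_⟩
    rw [E_mem_W] at hw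
    obtain ⟨e, he, rfl⟩ := hw
    have hc' : u = algebraMap ℂ K c := congrArg Subtype.val hc
    rw [map_mul, h3 e (hE0F e he), hu', hc', Algebra.smul_def]
    ring

end Restrict

/-! ## Assembly -/

section Main

variable {K : Type} [Field K] [Algebra ℂ K]

/-- the inclusion of the automorphisms over `ℂ` in the group of all field automorphisms -/
def E_emb (K : Type) [Field K] [Algebra ℂ K] : (K ≃ₐ[ℂ] K) →* (K ≃+* K) where
  toFun a := a.toRingEquiv
  map_one' := rfl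
  map_mul' _ _ := rfl

theorem E_emb_apply (a : K ≃ₐ[ℂ] K) (r : K) : E_emb K a r = a r := rfl

theorem E_emb_inj : Function.Injective (E_emb K) := fun _ _ h =>
  AlgEquiv.ext fun r => RingEquiv.congr_fun h r

/-- automorphisms acting trivially on `F` -/
def E_Fx (F : IntermediateField ℂ K) : Subgroup (K ≃+* K) where
  carrier := {g | ∀ f ∈ F, g f = f}
  mul_mem' := by
    intro g h hg hh f hf
    rw [RingAut.mul_apply, hh f hf, hg f hf]
  one_mem' := fun f _ => rfl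
  inv_mem' := by
    intro g hg f hf
    conv_lhs => rw [← hg f hf]
    exact g.symm_apply_apply f

theorem E_mem_Fx {F : IntermediateField ℂ K} {g : K ≃+* K} :
    g ∈ E_Fx F ↔ ∀ f ∈ F, g f = f := Iff.rfl

omit [Algebra ℂ K] in
theorem E_inv_eq {s : K ≃+* K} (hs : ∀ r, s (s r) = r) : s⁻¹ = s := by
  have : s * s = 1 := RingEquiv.ext hs
  exact inv_eq_of_mul_eq_one_right this

omit [Algebra ℂ K] in
theorem E_conj_apply {s : K ≃+* K} (hs : ∀ r, s (s r) = r) (c : K ≃+* K) (r : K) :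
    (s * c * s⁻¹) r = s (c (s r)) := by
  rw [E_inv_eq hs]
  rfl

theorem E_conj_emb {s : K ≃+* K} (hs : ∀ r, s (s r) = r) {a a' : K ≃ₐ[ℂ] K}
    (h : ∀ r, a' r = s (a (s r))) : s * E_emb K a * s⁻¹ = E_emb K a' :=
  RingEquiv.ext fun r => by
    rw [E_conj_apply hs, E_emb_apply, E_emb_apply, h]

theorem st_E (h1 : ST_ELL) (h2 : ST_ELLQ) (h3 : ST_PROJ) (h4 : ST_EXT) (h5 : ST_DELTA)
    (h6 : ST_DEG) : ST_E := by
  classical
  intro K _ _ X A S F n y hcd hhit hll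
  obtain ⟨E, instE, T, S₀, inst1, inst2, θ, hell⟩ := h1 F hcd.ff hll
  obtain ⟨k, v, hv, hrat, Z, hZ, hN1⟩ := E_N1 h5 h6 hcd hhit
  have hS := hcd.sys
  obtain ⟨Cs, hC⟩ := hS.mem
  set A1 := E_A1 F A hcd.stab y hcd.ne with hA1
  set A2 := E_A2 F A1 T with hA2
  have hA1A : ∀ a ∈ A1, a ∈ A := fun a ha => ha.1
  have hA2A1 : ∀ a ∈ A2, a ∈ A1 := fun a ha => ha.1
  have hind : A2.relIndex A ≠ 0 := E_A2_index hcd.stab hcd.ne hcd.fin hell.fin
  have hA2of : ∀ a ∈ A1, (∀ f ∈ F, a f = f) → a ∈ A2 := by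
    intro a ha hf
    refine ⟨ha, 1, fun f => ?_⟩
    rw [map_one, AlgEquiv.one_apply, hf f f.2]
  have hmemA2 : ∀ a : K ≃ₐ[ℂ] K, E_emb K a ∈ A2.map (E_emb K) ↔ a ∈ A2 := by
    intro a
    rw [Subgroup.mem_map_iff_mem E_emb_inj]
  have hinv : ∀ s ∈ S, ∀ r, s (s r) = r := hS.invol
  have hfinal := h4 (K ≃+* K) (A.map (E_emb K)) (A2.map (E_emb K)) S
    (Subgroup.map_mono fun a ha => hA1A a (hA2A1 a ha))
    (by rwa [Subgroup.relIndex_map_map_of_injective _ _ E_emb_inj])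
    (fun s hs => RingEquiv.ext (hinv s hs))
    (by
      rintro s hs _ ⟨a, ha, rfl⟩ hprod
      obtain ⟨ν, hν, hν2⟩ := hS.closed s hs a ha (fun r => RingEquiv.congr_fun hprod r)
      have : ν = E_emb K a * s := RingEquiv.ext hν2
      rwa [← this])
    (by
      intro s hs s' hs'
      obtain ⟨a, ha, h⟩ := hS.diff s hs s' hs'
      refine ⟨a, ha, ?_⟩
      rw [eq_mul_inv_iff_mul_eq]
      exact RingEquiv.ext fun r => (h r).symm)
    (by
      rintro s hs _ ⟨a, ha, rfl⟩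
      obtain ⟨a', ha', h⟩ := hS.norm s hs a ha
      exact ⟨a', ha', (E_conj_emb (hinv s hs) h).symm⟩)
    ?_
  · obtain ⟨T', hT', hfin⟩ := hfinal
    refine ⟨T', hT', fun μ hμ => ?_⟩
    obtain ⟨b, hb, x, hx, hxb⟩ := hfin μ hμ
    obtain ⟨a, ha, rfl⟩ := hx
    exact ⟨b, hb, a, ha, fun r => RingEquiv.congr_fun hxb r⟩
  intro s hs
  have hsF : ∀ f ∈ F, s f ∈ F := hcd.stabS s hs
  have hss : ∀ r, s (s r) = r := hinv s hs
  set C : Subgroup (K ≃+* K) := A2.map (E_emb K) ⊓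
    (A2.map (E_emb K)).comap (MulAut.conj s).toMonoidHom with hCdef
  have hmemC : ∀ c, c ∈ C ↔ c ∈ A2.map (E_emb K) ∧ s * c * s⁻¹ ∈ A2.map (E_emb K) := by
    intro c
    rw [hCdef, Subgroup.mem_inf, Subgroup.mem_comap]
    rfl
  set N : Subgroup (K ≃+* K) := C ⊓ E_Fx F with hNdef
  have hstabC : ∀ c ∈ C, ∀ f ∈ F, c f ∈ F := by
    intro c hc f hf
    obtain ⟨⟨a, ha, rfl⟩, -⟩ := (hmemC c).1 hc
    exact hcd.stab a (hA1A a (hA2A1 a ha)) f hf
  -- the abstract lemma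
  have habs := E_abs C N (fun c p => ResTo F (⇑c) (T p))
    (by
      intro c hc
      obtain ⟨⟨a, ha, rfl⟩, -⟩ := (hmemC c).1 hc
      exact ha.2)
    (fun c c' p p' h h' f => E_resTo_mul (a := ⇑c) (b := ⇑c') h h' f)
    (fun c p h f => E_resTo_inv (a := ⇑c) (b := ⇑c⁻¹) (fun r => c.symm_apply_apply r) h f)
    (by
      intro c hc h
      refine ⟨hc, fun f hf => ?_⟩
      have := h ⟨f, hf⟩
      rw [map_one, AlgEquiv.one_apply] at this
      exact this.symm)
    (by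
      intro c hc f
      rw [map_one, AlgEquiv.one_apply, hc.2 f f.2])
    (by
      intro c p p' h h'
      apply hell.inj
      exact AlgEquiv.ext fun f => Subtype.ext ((h f).trans (h' f).symm))
    (fun p => hell.div p)
    hell.two
    (by
      set y' : Fin (n + n) → K := Fin.append y (fun i => s (y i)) with hy'
      set Q : Set E := {e | ∃ a : K ≃ₐ[ℂ] K, Pres X a ∧ (∀ b ∈ Cs, a * b = b * a) ∧
        (∀ i, ∃ u ∈ F, a (y' i) = u * y' i) ∧
        ResTo F a (T (Multiplicative.ofAdd e))} with hQ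
      have hy'ne : ∀ i, y' i ≠ 0 := by
        intro i
        refine Fin.addCases (fun j => ?_) (fun j => ?_) i
        · rw [hy', Fin.append_left]
          exact hcd.ne j
        · rw [hy', Fin.append_right]
          exact (map_ne_zero_iff s s.injective).2 (hcd.ne j)
      have hgen' : FGen (Set.range y') := by
        have hg := hcd.gen
        unfold FGen at hg ⊢
        rw [eq_top_iff, ← hg]
        apply IntermediateField.adjoin.mono
        rintro _ ⟨i, rfl⟩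
        exact ⟨Fin.castAdd n i, by rw [hy', Fin.append_left]⟩
      by_cases hQf : Q.Finite
      · left
        apply (hQf.preimage (Multiplicative.toAdd.injective.injOn)).subset
        rintro p ⟨c, hc, hcp⟩
        obtain ⟨⟨a, ha, rfl⟩, ⟨a', ha', haa'⟩⟩ := (hmemC c).1 hc
        have haA : a ∈ A := hA1A a (hA2A1 a ha)
        have hpc := (hC a).1 haA
        have hconj : ∀ r, a' r = s (a (s r)) := by
          intro r
          have := RingEquiv.congr_fun haa' r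
          rw [E_conj_apply hss, E_emb_apply, E_emb_apply] at this
          exact this
        refine ⟨a, hpc.1, hpc.2, fun i => ?_, hcp⟩
        refine Fin.addCases (fun j => ?_) (fun j => ?_) i
        · rw [hy', Fin.append_left]
          exact (hA2A1 a ha).2 j
        · rw [hy', Fin.append_right]
          obtain ⟨u, hu, hu'⟩ := (hA2A1 a' ha').2 j
          refine ⟨s u, hsF u hu, ?_⟩
          rw [hconj] at hu'
          have h7 := congrArg s hu'
          rwa [hss, map_mul] at h7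
      · right
        have hQu : Q = Set.univ := h2 K X Cs F (n + n) y' hcd.model hcd.ff
          (fun a hp hc => hcd.stab a ((hC a).2 ⟨hp, hc⟩)) hy'ne hgen' hhit E T S₀ θ hell Q hQ
          hQf
        refine ⟨T.range.comap ((E_kap F s (hS.anti s hs) hss hsF).comp T),
          E_comap_index _ _ hell.fin, fun p hp => ?_⟩
        obtain ⟨q, hq⟩ := hp
        have hpQ : Multiplicative.toAdd p ∈ Q := by
          rw [hQu]
          exact Set.mem_univ _
        obtain ⟨a, ha1, ha2, ha3, ha4⟩ := hpQ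
        have haA : a ∈ A := (hC a).2 ⟨ha1, ha2⟩
        obtain ⟨a', ha', hconj⟩ := hS.norm s hs a haA
        have haA1 : a ∈ A1 := by
          refine ⟨haA, fun i => ?_⟩
          have := ha3 (Fin.castAdd n i)
          rwa [hy', Fin.append_left] at this
        have haA1' : a' ∈ A1 := by
          refine ⟨ha', fun i => ?_⟩
          have := ha3 (Fin.natAdd n i)
          rw [hy', Fin.append_right] at this
          obtain ⟨u, hu, hu'⟩ := this
          refine ⟨s u, hsF u hu, ?_⟩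
          rw [hconj, hu', map_mul, hss]
        have haA2 : a ∈ A2 := ⟨haA1, p, ha4⟩
        have haA2' : a' ∈ A2 := by
          refine ⟨haA1', q, fun f => ?_⟩
          rw [hq, MonoidHom.comp_apply, E_kap_apply, hconj]
          congr 1
          exact ha4 _
        refine ⟨E_emb K a, (hmemC _).2 ⟨(hmemA2 a).2 haA2, ?_⟩, ha4⟩
        rw [E_conj_emb hss hconj]
        exact (hmemA2 a').2 haA2')
  refine ⟨C, N, inf_le_left, ?_, ?_, ?_, ?_, ?_, ?_, habs.1, habs.2, ?_⟩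
  · intro c hc
    obtain ⟨⟨a, ha, rfl⟩, -⟩ := (hmemC c).1 hc
    exact ⟨a, hA1A a (hA2A1 a ha), rfl⟩
  · intro a ha ha'
    exact (hmemC a).2 ⟨ha, ha'⟩
  · intro c hc
    obtain ⟨hc1, hc2⟩ := (hmemC c).1 hc
    refine (hmemC _).2 ⟨hc2, ?_⟩
    have : s * (s * c * s⁻¹) * s⁻¹ = c := RingEquiv.ext fun r => by
      rw [E_conj_apply hss, E_conj_apply hss, hss, hss]
    rwa [this]
  · rintro a ⟨ha1, ha2⟩
    obtain ⟨hc1, hc2⟩ := (hmemC a).1 ha1
    refine ⟨(hmemC _).2 ⟨hc2, ?_⟩, fun f hf => ?_⟩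
    · have : s * (s * a * s⁻¹) * s⁻¹ = a := RingEquiv.ext fun r => by
        rw [E_conj_apply hss, E_conj_apply hss, hss, hss]
      rwa [this]
    · rw [E_conj_apply hss, ha2 _ (hsF f hf), hss]
  · rintro c hc a ⟨ha1, ha2⟩
    refine ⟨C.mul_mem (C.mul_mem hc ha1) (C.inv_mem hc), fun f hf => ?_⟩
    rw [RingAut.mul_apply, RingAut.mul_apply, ha2 _ (hstabC _ (C.inv_mem hc) f hf)]
    exact c.apply_symm_apply f
  · intro c hc c' hc'
    have hcom : c * c' * c⁻¹ * c'⁻¹ ∈ C :=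
      C.mul_mem (C.mul_mem (C.mul_mem hc hc') (C.inv_mem hc)) (C.inv_mem hc')
    refine ⟨hcom, fun f hf => ?_⟩
    obtain ⟨⟨a, ha, rfl⟩, -⟩ := (hmemC c).1 hc
    obtain ⟨⟨a', ha', rfl⟩, -⟩ := (hmemC c').1 hc'
    obtain ⟨p, hp⟩ := ha.2
    obtain ⟨p', hp'⟩ := ha'.2
    have h7 : ResTo F (fun r => a (a' (a.symm (a'.symm r)))) (T (p * p' * p⁻¹ * p'⁻¹)) :=
      E_resTo_mul (a := fun r => a (a' (a.symm r)))
        (E_resTo_mul (a := fun r => a (a' r)) (E_resTo_mul hp hp')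
          (E_resTo_inv (fun r => a.symm_apply_apply r) hp))
        (E_resTo_inv (fun r => a'.symm_apply_apply r) hp')
    rw [show p * p' * p⁻¹ * p'⁻¹ = 1 by
      rw [mul_comm p p', mul_inv_cancel_right, mul_inv_cancel], map_one] at h7
    exact (h7 ⟨f, hf⟩).symm
  · intro s' hs' hs's
    have hss' : ∀ r, s' (s' r) = r := hinv s' hs'
    have hsF' : ∀ f ∈ F, s' f ∈ F := hcd.stabS s' hs'
    obtain ⟨Tf, hTf, hproj⟩ := h3 K X A S hcd.model hcd.sys k v hv hrat Z hZ s' hs'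
    refine ⟨Tf.image (fun b => E_emb K b * s'), ?_⟩
    rintro _ ⟨haC, haF⟩ hprod
    obtain ⟨⟨a, ha, rfl⟩, hconja⟩ := (hmemC _).1 haC
    have haA : a ∈ A := hA1A a (hA2A1 a ha)
    -- conjugation by `s'`
    have hcc : ∀ g : K ≃+* K, s' * g * s'⁻¹ = (s' * s⁻¹) * (s * g * s⁻¹) * (s' * s⁻¹)⁻¹ := by
      intro g
      group
    have hcc2 : ∀ g : K ≃+* K, s * g * s⁻¹ = (s' * s⁻¹)⁻¹ * (s' * g * s'⁻¹) * (s' * s⁻¹) := by
      intro g
      group
    have hcM : s' * s⁻¹ ∈ A2.map (E_emb K) := ((hmemC _).1 hs's).1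
    obtain ⟨a2, ha2, ha2c⟩ := hS.norm s' hs' a haA
    have ha2A2 : a2 ∈ A2 := by
      rw [← hmemA2, ← E_conj_emb hss' ha2c, hcc]
      exact (A2.map (E_emb K)).mul_mem ((A2.map (E_emb K)).mul_mem hcM hconja)
        ((A2.map (E_emb K)).inv_mem hcM)
    have hla : ∃ M ∈ Z, LinRel v a M := (hN1 a haA).2 ⟨hA2A1 a ha, fun f hf => haF f hf⟩
    have hla2 : ∃ M ∈ Z, LinRel v (fun r => s' (a (s' r))) M := by
      have h7 : (fun r => s' (a (s' r))) = (⇑a2 : K → K) := funext fun r => (ha2c r).symm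
      rw [h7]
      refine (hN1 a2 ha2).2 ⟨hA2A1 a2 ha2A2, fun f hf => ?_⟩
      rw [ha2c]
      have h8 : a (s' f) = s' f := haF _ (hsF' f hf)
      rw [h8, hss']
    obtain ⟨b, hb, x, hxA, hx1, hx2, hx3⟩ := hproj a haA hla hla2
      (fun r => RingEquiv.congr_fun hprod r)
    have hbs : ∀ r, b (s' r) = x.symm (a (s' (x r))) := by
      intro r
      rw [hx3, AlgEquiv.symm_apply_apply, AlgEquiv.symm_apply_apply]
    obtain ⟨ν, hν, hν2⟩ := hS.closed s' hs' b (hTf b hb) (by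
      intro r
      have h9 : a (s' (a (s' (x r)))) = x r := RingEquiv.congr_fun hprod (x r)
      rw [hbs, hbs, AlgEquiv.apply_symm_apply, h9, AlgEquiv.symm_apply_apply])
    have hν3 : ν = E_emb K b * s' := RingEquiv.ext hν2
    obtain ⟨hxA1, hxF⟩ := (hN1 x hxA).1 hx1
    obtain ⟨x2, hx2A, hx2c⟩ := hS.norm s' hs' x hxA
    have hx2N : x2 ∈ A1 ∧ ∀ f ∈ F, x2 f = f := by
      refine (hN1 x2 hx2A).1 ?_
      have h7 : (fun r => s' (x (s' r))) = (⇑x2 : K → K) := funext fun r => (hx2c r).symm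
      rw [← h7]
      exact hx2
    refine ⟨_, Finset.mem_image_of_mem _ hb, by rw [← hν3]; exact hν, E_emb K x, ⟨?_, ?_⟩, ?_⟩
    · refine (hmemC _).2 ⟨(hmemA2 x).2 (hA2of x hxA1 hxF), ?_⟩
      rw [hcc2, E_conj_emb hss' hx2c]
      exact (A2.map (E_emb K)).mul_mem ((A2.map (E_emb K)).mul_mem
        ((A2.map (E_emb K)).inv_mem hcM) ((hmemA2 x2).2 (hA2of x2 hx2N.1 hx2N.2))) hcM
    · intro f hf
      exact hxF f hf
    · exact RingEquiv.ext fun r => hx3 r

end Main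

end Pool.Agent.Helper43.FV
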